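import Mathlib

/-!
# Minimum covers of LCM `p`-groups

For a prime `p ≥ 3` let `W` be the wreath product of `C_p` by `C_p`, and let `E` be the subgroup of
its elements with coordinate sum zero; `E` is non-abelian of exponent `p`.  Put
`F k = {C_p ^ (p + k), E × C_p ^ k, C_{p²}}`.  The group `W × C_p ^ k`, of order `p ^ (p + 1 + k)`,
is an `F k`-cover.  Let `L` be a minimum `F k`-cover which is an LCM-group.  It is a `p`-group, so
`Ω = {x : x ^ p = 1}` is a subgroup of it.  It contains a copy of `C_p ^ (p + k)` properly, as it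
contains a copy of the non-abelian group `E`, and `Ω ≠ L`, as `L` contains a copy of `C_{p²}`.
Hence `|L| ≥ p ^ (p + k + 2)`, a contradiction.
-/

namespace Pool.Agent.Results.MP_8c719a_al.OddCovers

open CategoryTheory

/-- The set `LCM(G)`. -/
def LCM (G : Type) [Group G] : Set G :=
  {x | ∀ n : ℕ, 0 < n → ∀ y : G, orderOf (x ^ n * y) ∣ Nat.lcm (orderOf (x ^ n)) (orderOf y)}

/-- `G` is an LCM-group. -/
def IsLCMGroup (G : Type) [Group G] : Prop := LCM G = Set.univ

/-- The isomorphism classes of groups. -/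
abbrev IsoClass : Type 1 := Quotient (isIsomorphicSetoid GrpCat.{0})

/-- The isomorphism class of a group. -/
def cls (G : Type) [Group G] : IsoClass := Quotient.mk _ (GrpCat.of G)

/-- `G` is an `F`-cover, where `F` is a finite set of groups (members taken up to isomorphism): each
member of `F` is isomorphic to a subgroup of `G`. -/
def IsCover (F : Finset IsoClass) (G : Type) [Group G] : Prop :=
  ∀ X ∈ F, ∃ H : Subgroup G, cls H = X

/-- `G` is a minimum `F`-cover: a finite `F`-cover of least possible order. -/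
def IsMinCover (F : Finset IsoClass) (G : Type) [Group G] : Prop :=
  Finite G ∧ IsCover F G ∧
    ∀ (K : Type) [Group K], Finite K → IsCover F K → Nat.card G ≤ Nat.card K

/-! ### Isomorphism classes -/

theorem cls_eq_iff {G H : Type} [Group G] [Group H] : cls G = cls H ↔ Nonempty (G ≃* H) := by
  rw [cls, cls, Quotient.eq]
  constructor
  · rintro ⟨i⟩
    exact ⟨i.groupIsoToMulEquiv⟩
  · rintro ⟨e⟩
    exact ⟨MulEquiv.toGrpIso (X := GrpCat.of G) (Y := GrpCat.of H) e⟩

theorem exists_sub_iff {A G : Type} [Group A] [Group G] :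
    (∃ H : Subgroup G, cls H = cls A) ↔ ∃ f : A →* G, Function.Injective f := by
  constructor
  · rintro ⟨H, hH⟩
    obtain ⟨e⟩ := cls_eq_iff.1 hH
    exact ⟨H.subtype.comp e.symm.toMonoidHom,
      (Subgroup.subtype_injective H).comp e.symm.injective⟩
  · rintro ⟨f, hf⟩
    exact ⟨f.range, cls_eq_iff.2 ⟨(MonoidHom.ofInjective hf).symm⟩⟩

theorem exists_cls (X : IsoClass) : ∃ (A : Type) (_ : Group A), X = cls A := by
  induction X using Quotient.inductionOn with
  | _ A => exact ⟨A, inferInstance, rfl⟩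

/-! ### LCM-groups -/

theorem isLCM_congr {G H : Type} [Group G] [Group H] (e : G ≃* H) (h : IsLCMGroup G) :
    IsLCMGroup H := by
  rw [IsLCMGroup, Set.eq_univ_iff_forall] at h ⊢
  intro x n hn y
  have := h (e.symm x) n hn (e.symm y)
  have h1 : orderOf (x ^ n * y) = orderOf (e.symm x ^ n * e.symm y) := by
    rw [← orderOf_injective e.toMonoidHom e.injective (e.symm x ^ n * e.symm y)]
    simp
  have h2 : orderOf (x ^ n) = orderOf (e.symm x ^ n) := by
    rw [← orderOf_injective e.toMonoidHom e.injective (e.symm x ^ n)]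
    simp
  have h3 : orderOf y = orderOf (e.symm y) := by
    rw [← orderOf_injective e.toMonoidHom e.injective (e.symm y)]
    simp
  rw [h1, h2, h3]
  exact this

theorem isLCM_of_comm {G : Type} [Group G] (h : ∀ a b : G, a * b = b * a) : IsLCMGroup G := by
  rw [IsLCMGroup, Set.eq_univ_iff_forall]
  intro x n _ y
  exact Commute.orderOf_mul_dvd_lcm (h _ _)

theorem isLCM_of_exp {G : Type} [Group G] {p : ℕ} (hp : p.Prime) (h : ∀ a : G, a ^ p = 1) :
    IsLCMGroup G := by
  rw [IsLCMGroup, Set.eq_univ_iff_forall]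
  intro x n _ y
  have h1 := (Nat.dvd_prime hp).1 (orderOf_dvd_of_pow_eq_one (h (x ^ n)))
  have h2 := (Nat.dvd_prime hp).1 (orderOf_dvd_of_pow_eq_one (h y))
  have h3 := orderOf_dvd_of_pow_eq_one (h (x ^ n * y))
  rcases h1 with h1 | h1
  · rw [orderOf_eq_one_iff] at h1
    rw [h1, one_mul]
    exact Nat.dvd_lcm_right _ _
  · rw [h1]
    exact h3.trans (Nat.dvd_lcm_left _ _)

theorem mul_pow_eq_one {G : Type} [Group G] (h : IsLCMGroup G) {q : ℕ} {x y : G} (hx : x ^ q = 1)
    (hy : y ^ q = 1) : (x * y) ^ q = 1 := by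
  rw [IsLCMGroup, Set.eq_univ_iff_forall] at h
  have h1 := h x 1 one_pos y
  rw [pow_one] at h1
  apply orderOf_dvd_iff_pow_eq_one.1
  exact h1.trans (Nat.lcm_dvd (orderOf_dvd_iff_pow_eq_one.2 hx) (orderOf_dvd_iff_pow_eq_one.2 hy))

/-! ### The wreath product -/

/-- The wreath product of `C_p` by `C_p`. -/
@[ext] structure Wr (p : ℕ) where
  f : ZMod p → ZMod p
  c : ZMod p

namespace Wr

variable {p : ℕ}

instance : Mul (Wr p) := ⟨fun a b => ⟨fun i => a.f i + b.f (i + a.c), a.c + b.c⟩⟩
instance : One (Wr p) := ⟨⟨fun _ => 0, 0⟩⟩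
instance : Inv (Wr p) := ⟨fun a => ⟨fun i => - a.f (i - a.c), - a.c⟩⟩

@[simp] theorem mul_f (a b : Wr p) (i : ZMod p) : (a * b).f i = a.f i + b.f (i + a.c) := rfl
@[simp] theorem mul_c (a b : Wr p) : (a * b).c = a.c + b.c := rfl
@[simp] theorem one_f (i : ZMod p) : (1 : Wr p).f i = 0 := rfl
@[simp] theorem one_c : (1 : Wr p).c = 0 := rfl
@[simp] theorem inv_f (a : Wr p) (i : ZMod p) : (a⁻¹).f i = - a.f (i - a.c) := rfl
@[simp] theorem inv_c (a : Wr p) : (a⁻¹).c = - a.c := rfl

instance : Group (Wr p) := Group.ofLeftAxioms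
  (by intro a b c; ext i <;> simp [add_assoc])
  (by intro a; ext i <;> simp)
  (by intro a; ext i <;> simp [← sub_eq_add_neg])

/-- The wreath product as a product of sets. -/
def equivProd : Wr p ≃ (ZMod p → ZMod p) × ZMod p where
  toFun a := (a.f, a.c)
  invFun x := ⟨x.1, x.2⟩
  left_inv _ := rfl
  right_inv _ := rfl

instance [NeZero p] : Finite (Wr p) := Finite.of_equiv _ equivProd.symm

theorem card [NeZero p] : Nat.card (Wr p) = p ^ (p + 1) := by
  rw [Nat.card_congr equivProd, Nat.card_prod, Nat.card_fun, Nat.card_zmod, pow_succ]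

theorem pow_c (a : Wr p) (n : ℕ) : (a ^ n).c = n * a.c := by
  induction n with
  | zero => simp
  | succ n ih => rw [pow_succ, mul_c, ih]; push_cast; ring

theorem pow_f (a : Wr p) (n : ℕ) (i : ZMod p) :
    (a ^ n).f i = ∑ j ∈ Finset.range n, a.f (i + j * a.c) := by
  induction n with
  | zero => simp
  | succ n ih => rw [pow_succ, mul_f, ih, Finset.sum_range_succ, pow_c]

/-- The coordinate sum. -/
def sum [NeZero p] (a : Wr p) : ZMod p := ∑ i, a.f i

theorem sum_mul [NeZero p] (a b : Wr p) : (a * b).sum = a.sum + b.sum := by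
  simp only [sum, mul_f, Finset.sum_add_distrib]
  congr 1
  exact Fintype.sum_equiv (Equiv.addRight a.c) _ _ (fun i => rfl)

/-- The subgroup of the elements with coordinate sum zero. -/
def E (p : ℕ) [NeZero p] : Subgroup (Wr p) where
  carrier := {a | a.sum = 0}
  one_mem' := by simp [sum]
  mul_mem' := by
    intro a b ha hb
    change (a * b).sum = 0
    rw [sum_mul, show a.sum = 0 from ha, show b.sum = 0 from hb, add_zero]
  inv_mem' := by
    intro a ha
    change (a⁻¹).sum = 0
    have h := sum_mul a⁻¹ a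
    rw [inv_mul_cancel, show a.sum = 0 from ha, add_zero] at h
    rw [← h]
    simp [sum]

theorem sum_range [Fact p.Prime] (g : ZMod p → ZMod p) :
    ∑ j ∈ Finset.range p, g (j : ZMod p) = ∑ i, g i := by
  refine Finset.sum_nbij' (fun j => (j : ZMod p)) (fun i => i.val) ?_ ?_ ?_ ?_ ?_
  · intro j _; exact Finset.mem_univ _
  · intro i _; exact Finset.mem_range.2 (ZMod.val_lt i)
  · intro j hj; exact ZMod.val_cast_of_lt (Finset.mem_range.1 hj)
  · intro i _; exact ZMod.natCast_zmod_val i
  · intro j _; rfl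

theorem pow_p_f [Fact p.Prime] (a : Wr p) (h : a.c ≠ 0) (i : ZMod p) : (a ^ p).f i = a.sum := by
  rw [pow_f, sum_range (fun j => a.f (i + j * a.c)), sum]
  refine Fintype.sum_equiv ((Equiv.mulRight₀ a.c h).trans (Equiv.addLeft i)) _ _ (fun j => rfl)

theorem pow_p_of_sum [Fact p.Prime] (a : Wr p) (h : a.sum = 0) : a ^ p = 1 := by
  ext i
  · by_cases hc : a.c = 0
    · rw [pow_f]
      simp [hc]
    · rw [pow_p_f a hc, h, one_f]
  · rw [pow_c]
    simp

/-- An element of order `p²`. -/
def u (p : ℕ) : Wr p := ⟨fun i => if i = 0 then 1 else 0, 1⟩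

theorem u_pow [Fact p.Prime] (i : ZMod p) : (u p ^ p).f i = 1 := by
  rw [pow_p_f _ (by simp [u]), sum]
  simp [u]

theorem orderOf_u [Fact p.Prime] : orderOf (u p) = p ^ 2 := by
  refine orderOf_eq_prime_pow (n := 1) ?_ ?_
  · rw [pow_one]
    intro h
    have := u_pow (p := p) 0
    rw [h, one_f] at this
    exact zero_ne_one this
  · rw [show p ^ (1 + 1) = p * p by ring, pow_mul]
    refine pow_p_of_sum _ ?_
    rw [sum]
    simp only [u_pow]
    simp

/-- Two elements of `E` that do not commute. -/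
def v (p : ℕ) : Wr p := ⟨fun i => if i = 0 then 1 else if i = 1 then -1 else 0, 0⟩

/-- The shift. -/
def s (p : ℕ) : Wr p := ⟨fun _ => 0, 1⟩

theorem v_mem [Fact p.Prime] : v p ∈ E p := by
  change (v p).sum = 0
  have h01 : (0 : ZMod p) ≠ 1 := zero_ne_one
  have : ∀ i : ZMod p, (v p).f i = (if i = 0 then 1 else 0) + (if i = 1 then -1 else 0) := by
    intro i
    by_cases h0 : i = 0
    · subst h0
      simp [v, h01]
    · simp [v, h0]
  simp only [sum, this, Finset.sum_add_distrib]
  simp

theorem s_mem [Fact p.Prime] : s p ∈ E p := by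
  change (s p).sum = 0
  simp [sum, s]

theorem vs_ne [Fact p.Prime] (h2 : p ≠ 2) : v p * s p ≠ s p * v p := by
  intro h
  have h1 := congrFun (congrArg Wr.f h) 0
  simp only [mul_f] at h1
  have hne : (1 : ZMod p) ≠ -1 := by
    intro h3
    have h4 : ((2 : ℕ) : ZMod p) = 0 := by
      push_cast
      linear_combination h3
    rw [ZMod.natCast_eq_zero_iff] at h4
    exact h2 ((Nat.prime_dvd_prime_iff_eq Fact.out Nat.prime_two).1 h4)
  apply hne
  simpa [v, s] using h1

end Wr

/-! ### The families -/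

section Families

variable (p : ℕ) [hp : Fact p.Prime]

/-- The elementary abelian group `C_p ^ n`. -/
abbrev El (n : ℕ) : Type := Fin n → Multiplicative (ZMod p)

/-- The group `E × C_p ^ k`. -/
abbrev B (k : ℕ) : Type := Wr.E p × El p k

/-- The cyclic group of order `p²`. -/
abbrev C2 : Type := Multiplicative (ZMod (p ^ 2))

open Classical in
/-- The `k`-th set of groups. -/
noncomputable def F (k : ℕ) : Finset IsoClass := {cls (El p (p + k)), cls (B p k), cls (C2 p)}

theorem mem_F {k : ℕ} {X : IsoClass} :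
    X ∈ F p k ↔ X = cls (El p (p + k)) ∨ X = cls (B p k) ∨ X = cls (C2 p) := by
  classical
  rw [F]
  simp

theorem card_El (n : ℕ) : Nat.card (El p n) = p ^ n := by
  rw [Nat.card_fun, Nat.card_fin, Nat.card_congr Multiplicative.toAdd, Nat.card_zmod]

theorem El_pow (n : ℕ) (a : El p n) : a ^ p = 1 := by
  funext i
  have : (a i) ^ p = 1 := by
    have h : (Multiplicative.toAdd (a i)) = Multiplicative.toAdd (a i) := rfl
    apply Multiplicative.toAdd.injective
    rw [toAdd_pow, toAdd_one]
    simp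
  simpa using this

theorem B_pow (k : ℕ) (a : B p k) : a ^ p = 1 := by
  ext1
  · ext1
    simpa using Wr.pow_p_of_sum a.1.1 a.1.2
  · simpa using El_pow p k a.2

instance (k : ℕ) : Finite (B p k) := inferInstance

theorem B_not_comm (h2 : p ≠ 2) (k : ℕ) : ∃ a b : B p k, a * b ≠ b * a := by
  refine ⟨(⟨_, Wr.v_mem⟩, 1), (⟨_, Wr.s_mem⟩, 1), fun h => Wr.vs_ne (p := p) h2 ?_⟩
  have h1 := congrArg (fun x : B p k => (x.1 : Wr p)) h
  simpa using h1

theorem isPGroup_of_exp {G : Type} [Group G] (q : ℕ) (h : ∀ g : G, g ^ p ^ q = 1) :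
    IsPGroup p G := fun g => ⟨q, h g⟩

instance : NeZero (p ^ 2) := ⟨pow_ne_zero 2 hp.out.ne_zero⟩

theorem F_spec (k : ℕ) (G : Type) [Group G] (h : cls G ∈ F p k) :
    Finite G ∧ IsPGroup p G ∧ IsLCMGroup G := by
  rw [mem_F] at h
  rcases h with h | h | h
  · obtain ⟨e⟩ := cls_eq_iff.1 h
    exact ⟨Finite.of_equiv _ e.symm.toEquiv,
      (isPGroup_of_exp p 1 (by intro g; rw [pow_one]; exact El_pow p _ g)).of_equiv e.symm,
      isLCM_congr e.symm (isLCM_of_comm mul_comm)⟩
  · obtain ⟨e⟩ := cls_eq_iff.1 h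
    exact ⟨Finite.of_equiv _ e.symm.toEquiv,
      (isPGroup_of_exp p 1 (by intro g; rw [pow_one]; exact B_pow p _ g)).of_equiv e.symm,
      isLCM_congr e.symm (isLCM_of_exp hp.out (B_pow p k))⟩
  · obtain ⟨e⟩ := cls_eq_iff.1 h
    refine ⟨Finite.of_equiv _ e.symm.toEquiv,
      (isPGroup_of_exp p 2 ?_).of_equiv e.symm,
      isLCM_congr e.symm (isLCM_of_comm mul_comm)⟩
    intro g
    have : Nat.card (C2 p) = p ^ 2 := by
      rw [Nat.card_congr Multiplicative.toAdd, Nat.card_zmod]
    have h1 : g ^ Nat.card (C2 p) = 1 := pow_card_eq_one'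
    rwa [this] at h1

theorem F_injective (h2 : p ≠ 2) : Function.Injective (F p) := by
  intro k j hkj
  have h : cls (El p (p + k)) ∈ F p j := by
    rw [← hkj, mem_F]
    exact Or.inl rfl
  rw [mem_F] at h
  rcases h with h | h | h
  · obtain ⟨e⟩ := cls_eq_iff.1 h
    have h1 := Nat.card_congr e.toEquiv
    rw [card_El, card_El] at h1
    have := Nat.pow_right_injective hp.out.two_le h1
    omega
  · exfalso
    obtain ⟨e⟩ := cls_eq_iff.1 h
    obtain ⟨a, b, hab⟩ := B_not_comm p h2 j
    apply hab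
    apply e.symm.injective
    rw [map_mul, map_mul, mul_comm]
  · exfalso
    obtain ⟨e⟩ := cls_eq_iff.1 h
    have h1 : (Multiplicative.ofAdd (1 : ZMod (p ^ 2))) ^ p = 1 := by
      apply e.symm.injective
      rw [map_pow, map_one e.symm]
      exact El_pow p _ _
    have h3 : (p : ZMod (p ^ 2)) = 0 := by
      have := congrArg Multiplicative.toAdd h1
      simpa using this
    rw [ZMod.natCast_eq_zero_iff] at h3
    have h4 := Nat.le_of_dvd hp.out.pos h3
    have h5 := hp.out.two_le
    nlinarith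

/-- The embedding of `C_p ^ (p + k)` in the cover. -/
theorem El_embed (k : ℕ) : ∃ f : El p (p + k) →* Wr p × El p k, Function.Injective f := by
  have e : Fin p ≃ ZMod p := Fintype.equivOfCardEq (by rw [Fintype.card_fin, ZMod.card])
  refine ⟨{ toFun := fun a => (⟨fun i => Multiplicative.toAdd (a (Fin.castAdd k (e.symm i))), 0⟩,
              fun j => a (Fin.natAdd p j))
            map_one' := ?_
            map_mul' := ?_ }, ?_⟩
  · ext <;> simp
  · intro a b
    ext <;> simp
  · intro a b hab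
    funext i
    refine Fin.addCases (fun i => ?_) (fun j => ?_) i
    · have h1 := congrFun (congrArg (fun x : Wr p × El p k => x.1.f) hab) (e i)
      simpa using h1
    · have h1 := congrFun (congrArg (fun x : Wr p × El p k => x.2) hab) j
      simpa using h1

theorem isCover (k : ℕ) : IsCover (F p k) (Wr p × El p k) := by
  intro X hX
  rw [mem_F] at hX
  rcases hX with rfl | rfl | rfl
  · exact exists_sub_iff.2 (El_embed p k)
  · refine exists_sub_iff.2 ⟨MonoidHom.prodMap (Wr.E p).subtype (MonoidHom.id _), ?_⟩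
    intro a b hab
    have h1 := congrArg (fun x : Wr p × El p k => x.1) hab
    have h2 := congrArg (fun x : Wr p × El p k => x.2) hab
    ext1
    · exact Subtype.ext h1
    · exact h2
  · refine ⟨Subgroup.zpowers ((Wr.u p, 1) : Wr p × El p k), ?_⟩
    rw [cls_eq_iff]
    have ho : orderOf ((Wr.u p, 1) : Wr p × El p k) = p ^ 2 := by
      rw [Prod.orderOf, orderOf_one, Wr.orderOf_u]
      simp
    exact ⟨(zmodCyclicMulEquiv (G := Subgroup.zpowers ((Wr.u p, 1) : Wr p × El p k))
      inferInstance).symm.trans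
        (AddEquiv.toMultiplicative (ZMod.ringEquivCongr (by rw [Nat.card_zpowers, ho])).toAddEquiv)⟩

theorem card_cover (k : ℕ) : Nat.card (Wr p × El p k) = p ^ (p + 1 + k) := by
  rw [Nat.card_prod, Wr.card, card_El, pow_add _ (p + 1) k]

/-- A minimum cover of `p`-groups is a `p`-group. -/
theorem isPGroup_of_min {F : Finset IsoClass}
    (hF : ∀ (G : Type) [Group G], cls G ∈ F → IsPGroup p G) {L : Type} [Group L]
    (hL : IsMinCover F L) : IsPGroup p L := by
  obtain ⟨hfin, hc, hmin⟩ := hL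
  obtain ⟨P⟩ := (inferInstance : Nonempty (Sylow p L))
  have hP : IsCover F P := by
    intro X hX
    obtain ⟨H, hH⟩ := hc X hX
    have hHp : IsPGroup p H := hF H (by rw [hH]; exact hX)
    obtain ⟨Q, hQ⟩ := hHp.exists_le_sylow
    rw [← hH]
    refine exists_sub_iff.2 ⟨(Sylow.equiv Q P).toMonoidHom.comp (Subgroup.inclusion hQ), ?_⟩
    exact (Sylow.equiv Q P).injective.comp (Subgroup.inclusion_injective hQ)
  have h1 := hmin P inferInstance hP
  have h2 : (P : Subgroup L) = ⊤ := Subgroup.eq_top_of_le_card _ h1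
  have h3 := P.2
  rw [h2] at h3
  exact h3.of_equiv Subgroup.topEquiv

/-- The elements killed by `p` in an LCM-group. -/
def Om {L : Type} [Group L] (h : IsLCMGroup L) : Subgroup L where
  carrier := {x | x ^ p = 1}
  one_mem' := one_pow _
  mul_mem' := fun ha hb => mul_pow_eq_one h ha hb
  inv_mem' := fun {a} ha => by
    change a⁻¹ ^ p = 1
    rw [inv_pow, show a ^ p = 1 from ha, inv_one]

theorem pow_card_lt {L : Type} [Group L] [Finite L] (hL : IsPGroup p L) {H K : Subgroup L}
    (h : H < K) : p * Nat.card H ≤ Nat.card K := by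
  have h1 : Nat.card H ∣ Nat.card K := Subgroup.card_dvd_of_le h.le
  obtain ⟨a, ha⟩ := IsPGroup.iff_card.1 (hL.to_subgroup H)
  obtain ⟨b, hb⟩ := IsPGroup.iff_card.1 (hL.to_subgroup K)
  have h2 : Nat.card H ≠ Nat.card K := by
    intro h3
    exact h.ne (Subgroup.eq_of_le_of_card_ge h.le h3.ge)
  rw [ha, hb] at h1 h2 ⊢
  rw [Nat.pow_dvd_pow_iff_le_right hp.out.one_lt] at h1
  have h3 : a ≠ b := fun h => h2 (by rw [h])
  rw [← pow_succ']
  exact Nat.pow_le_pow_right hp.out.pos (by omega)

theorem not_LCM (h2 : p ≠ 2) (k : ℕ) (L : Type) [Group L] (hL : IsMinCover (F p k) L) :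
    ¬ IsLCMGroup L := by
  intro hLL
  have hpL := isPGroup_of_min p (fun G _ h => (F_spec p k G h).2.1) hL
  obtain ⟨hfin, hc, hmin⟩ := hL
  obtain ⟨f, hf⟩ := exists_sub_iff.1 (hc _ ((mem_F p).2 (Or.inl rfl)))
  obtain ⟨g, hg⟩ := exists_sub_iff.1 (hc _ ((mem_F p).2 (Or.inr (Or.inl rfl))))
  obtain ⟨h, hh⟩ := exists_sub_iff.1 (hc _ ((mem_F p).2 (Or.inr (Or.inr rfl))))
  have l1 : f.range < Om p hLL := by
    refine lt_of_le_of_ne ?_ ?_
    · rintro _ ⟨a, rfl⟩
      change f a ^ p = 1
      rw [← map_pow, El_pow, map_one]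
    · intro he
      obtain ⟨a, b, hab⟩ := B_not_comm p h2 k
      have ha : g a ∈ Om p hLL := by
        change g a ^ p = 1
        rw [← map_pow, B_pow, map_one]
      have hb : g b ∈ Om p hLL := by
        change g b ^ p = 1
        rw [← map_pow, B_pow, map_one]
      rw [← he] at ha hb
      obtain ⟨a', ha'⟩ := ha
      obtain ⟨b', hb'⟩ := hb
      apply hab
      apply hg
      rw [map_mul, map_mul, ← ha', ← hb', ← map_mul, ← map_mul, mul_comm]
  have l2 : Om p hLL < ⊤ := by
    rw [lt_top_iff_ne_top]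
    intro he
    have h1 : h (Multiplicative.ofAdd (1 : ZMod (p ^ 2))) ∈ Om p hLL := by rw [he]; trivial
    have h3 : h (Multiplicative.ofAdd (1 : ZMod (p ^ 2)) ^ p) = h 1 := by
      rw [map_pow, map_one h]
      exact h1
    have h4 : (p : ZMod (p ^ 2)) = 0 := by
      have := congrArg Multiplicative.toAdd (hh h3)
      simpa using this
    rw [ZMod.natCast_eq_zero_iff] at h4
    have h5 := Nat.le_of_dvd hp.out.pos h4
    have h6 := hp.out.two_le
    nlinarith
  have c1 := pow_card_lt p hpL l1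
  have c2 := pow_card_lt p hpL l2
  have c0 : Nat.card f.range = p ^ (p + k) := by
    rw [← card_El, Nat.card_congr (MonoidHom.ofInjective hf).toEquiv]
  rw [c0] at c1
  rw [Subgroup.card_top] at c2
  have c3 := hmin (Wr p × El p k) inferInstance (isCover p k)
  rw [card_cover] at c3
  have c4 : p * (p * p ^ (p + k)) ≤ p ^ (p + 1 + k) :=
    (Nat.mul_le_mul_left p c1).trans (c2.trans c3)
  have c5 : p ^ (p + 1 + k) = p * p ^ (p + k) := by
    rw [← pow_succ']; congr 1; omega
  rw [c5] at c4
  have c6 : 0 < p * p ^ (p + k) := Nat.mul_pos hp.out.pos (pow_pos hp.out.pos _)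
  have := hp.out.two_le
  nlinarith

end Families

/-- For every odd prime `p` there are infinitely many finite sets of LCM-`p`-groups (members taken
up to isomorphism) all of whose minimum covers fail to be LCM-groups. -/
theorem result (p : ℕ) (hp : p.Prime) (h2 : p ≠ 2) :
    {F : Finset IsoClass |
      (∀ (G : Type) [Group G], cls G ∈ F → Finite G ∧ IsPGroup p G ∧ IsLCMGroup G) ∧
      ∀ (L : Type) [Group L], IsMinCover F L → ¬ IsLCMGroup L}.Infinite := by
  have : Fact p.Prime := ⟨hp⟩
  refine (Set.infinite_range_of_injective (F_injective p h2)).mono ?_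
  rintro _ ⟨k, rfl⟩
  exact ⟨fun G _ h => F_spec p k G h, fun L _ hL => not_LCM p h2 k L hL⟩

end Pool.Agent.Results.MP_8c719a_al.OddCovers
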